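import Mathlib

/-!
# Exponents of a monotone quantity from two-sided power bounds
-/

set_option autoImplicit false

open Set Filter Metric MeasureTheory Topology

namespace Pool.Agent.Y662.EXF

theorem core (F : ℝ → ENNReal) (α : ℝ)
    (hlo : ∀ ε : ℝ, 0 < ε → ∃ r₀ : ℝ, 0 < r₀ ∧ ∀ r : ℝ, 0 < r → r ≤ r₀ →
      ENNReal.ofReal (r ^ (α + ε)) ≤ F r)
    (hup : ∀ ε : ℝ, 0 < ε → ∃ K r₀ : ℝ, 0 < K ∧ 0 < r₀ ∧ ∀ r : ℝ, 0 < r → r ≤ r₀ →
      F r ≤ ENNReal.ofReal (K * r ^ (α - ε))) :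
    Tendsto (fun r : ℝ => Real.log (F r).toReal / Real.log r) (𝓝[>] 0) (𝓝 α) := by
  rw [Metric.tendsto_nhds]
  intro δ hδ
  obtain ⟨r₁, hr₁, H1⟩ := hlo (δ / 2) (by positivity)
  obtain ⟨K, r₂, hK, hr₂, H2⟩ := hup (δ / 2) (by positivity)
  have hlog : Tendsto (fun r : ℝ => Real.log K / Real.log r) (𝓝[>] 0) (𝓝 0) :=
    Real.tendsto_log_nhdsGT_zero.const_div_atBot _
  have e1 : ∀ᶠ r in 𝓝[>] (0 : ℝ), -(δ / 2) < Real.log K / Real.log r :=
    hlog.eventually_const_lt (by linarith)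
  have e2 : ∀ᶠ r in 𝓝[>] (0 : ℝ), r < min (min r₁ r₂) 1 :=
    eventually_nhdsWithin_of_eventually_nhds
      (eventually_lt_nhds (lt_min (lt_min hr₁ hr₂) one_pos))
  filter_upwards [e1, e2, self_mem_nhdsWithin] with r h1 h2 h3
  have hr0 : 0 < r := h3
  have hr1 : r ≤ r₁ := (h2.trans_le ((min_le_left _ _).trans (min_le_left _ _))).le
  have hr2 : r ≤ r₂ := (h2.trans_le ((min_le_left _ _).trans (min_le_right _ _))).le
  have hr3 : r < 1 := h2.trans_le (min_le_right _ _)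
  have hlr : Real.log r < 0 := Real.log_neg hr0 hr3
  have hfin : F r ≠ ⊤ := ne_top_of_le_ne_top ENNReal.ofReal_ne_top (H2 r hr0 hr2)
  have hlow : r ^ (α + δ / 2) ≤ (F r).toReal := by
    rw [← ENNReal.ofReal_le_iff_le_toReal hfin]
    exact H1 r hr0 hr1
  have hupp : (F r).toReal ≤ K * r ^ (α - δ / 2) :=
    ENNReal.toReal_le_of_le_ofReal (by positivity) (H2 r hr0 hr2)
  have hpos : 0 < (F r).toReal := lt_of_lt_of_le (Real.rpow_pos_of_pos hr0 _) hlow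
  have g1 : (α + δ / 2) * Real.log r ≤ Real.log (F r).toReal := by
    rw [← Real.log_rpow hr0]
    exact Real.log_le_log (Real.rpow_pos_of_pos hr0 _) hlow
  have g2 : Real.log (F r).toReal ≤ Real.log K + (α - δ / 2) * Real.log r := by
    rw [← Real.log_rpow hr0, ← Real.log_mul hK.ne' (Real.rpow_pos_of_pos hr0 _).ne']
    exact Real.log_le_log hpos hupp
  have g3 : Real.log (F r).toReal / Real.log r ≤ α + δ / 2 := by
    rw [div_le_iff_of_neg hlr]
    exact g1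
  have g4 : Real.log K / Real.log r + (α - δ / 2) ≤ Real.log (F r).toReal / Real.log r := by
    rw [le_div_iff_of_neg hlr, add_mul, div_mul_cancel₀ _ hlr.ne]
    exact g2
  rw [Real.dist_eq, abs_lt]
  constructor <;> linarith

/-- the volume of a ball of the maximum norm -/
theorem vol_ball (d : ℕ) (c : Fin (d + 1) → ℂ) {r : ℝ} (hr : 0 ≤ r) :
    volume (closedBall c r) = ENNReal.ofReal ((Real.pi * r ^ 2) ^ (d + 1)) := by
  rw [volume_pi_closedBall c hr]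
  have h : ∀ i : Fin (d + 1), volume (closedBall (c i) r) = ENNReal.ofReal (Real.pi * r ^ 2) := by
    intro i
    rw [Complex.volume_closedBall, mul_comm, ENNReal.ofReal_mul Real.pi_pos.le,
      ENNReal.ofReal_pow hr]
    congr 1
    exact (ENNReal.ofReal_coe_nnreal (p := NNReal.pi)).symm
  simp_rw [h]
  rw [Finset.prod_const, Finset.card_univ, Fintype.card_fin,
    ENNReal.ofReal_pow (by positivity)]

/-- the form in which the exponents arise -/
theorem core2 (d : ℕ) (hd : 2 ≤ d) (c : Fin (d + 1) → ℂ) (S : Set (Fin (d + 1) → ℂ))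
    (hlo : ∀ ε : ℝ, 0 < ε → ∃ r₀ : ℝ, 0 < r₀ ∧ ∀ r : ℝ, 0 < r → r ≤ r₀ →
      ENNReal.ofReal (r ^ (2 * (d : ℝ) ^ 2 / ((d : ℝ) - 1) + ε)) ≤ volume (S ∩ closedBall c r))
    (hup : ∀ E : ℝ, 0 ≤ E → 2 + E < 2 * (d : ℝ) / ((d : ℝ) - 1) →
      ∃ C ε : ℝ, 0 < C ∧ 0 < ε ∧ ∀ r : ℝ, 0 < r → r ≤ ε →
        volume (S ∩ closedBall c r) ≤ ENNReal.ofReal (C * r ^ E) * volume (closedBall c r)) :
    Tendsto (fun r : ℝ => Real.log (volume (S ∩ closedBall c r)).toReal / Real.log r)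
      (𝓝[>] 0) (𝓝 (2 * (d : ℝ) ^ 2 / ((d : ℝ) - 1))) := by
  have hdR : (2 : ℝ) ≤ d := by exact_mod_cast hd
  have hd1 : 0 < (d : ℝ) - 1 := by linarith
  refine core (fun r => volume (S ∩ closedBall c r)) _ hlo ?_
  intro ε hε
  set E : ℝ := max 0 (2 / ((d : ℝ) - 1) - ε) with hE
  have hE0 : 0 ≤ E := le_max_left _ _
  have hE1 : 2 / ((d : ℝ) - 1) - ε ≤ E := le_max_right _ _
  have hE2 : E < 2 / ((d : ℝ) - 1) := by
    rw [hE]
    exact max_lt (by positivity) (by linarith)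
  have hid : 2 * (d : ℝ) / ((d : ℝ) - 1) = 2 + 2 / ((d : ℝ) - 1) := by
    field_simp
    ring
  have hid2 : 2 * (d : ℝ) ^ 2 / ((d : ℝ) - 1) = 2 * ((d : ℝ) + 1) + 2 / ((d : ℝ) - 1) := by
    field_simp
    ring
  obtain ⟨C, r₀, hC, hr₀, H⟩ := hup E hE0 (by rw [hid]; linarith)
  refine ⟨C * Real.pi ^ (d + 1), min r₀ 1, by positivity, lt_min hr₀ one_pos, ?_⟩
  intro r hr hrr
  refine (H r hr (hrr.trans (min_le_left _ _))).trans ?_
  rw [vol_ball d c hr.le, ← ENNReal.ofReal_mul (by positivity)]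
  refine ENNReal.ofReal_le_ofReal ?_
  have h1 : C * r ^ E * (Real.pi * r ^ 2) ^ (d + 1) =
      C * Real.pi ^ (d + 1) * (r ^ E * r ^ (2 * ((d : ℝ) + 1))) := by
    have h2 : r ^ (2 * ((d : ℝ) + 1)) = (r ^ 2) ^ (d + 1) := by
      rw [← pow_mul, ← Real.rpow_natCast]
      congr 1
      push_cast
      ring
    rw [h2, mul_pow]
    ring
  rw [h1, ← Real.rpow_add hr, hid2]
  refine mul_le_mul_of_nonneg_left ?_ (by positivity)
  exact Real.rpow_le_rpow_of_exponent_ge hr (hrr.trans (min_le_right _ _)) (by linarith)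

end Pool.Agent.Y662.EXF
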